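import Pool.Agent.H24.EH.Defs

/-!
# EHP (S06849): block (C) `compare`, comparison of the `q` integrals

`compare_of` = `compare` of helper24's `Energy.lean` with the other blocks as hypotheses.
-/

set_option autoImplicit false

open MeasureTheory Set Filter Topology
open scoped Real

noncomputable section

namespace Pool.Agent.H51.EH

open Pool.Agent.H24.EH
open Pool.Agent.H15.EH (FData U cont_max)

/-- the properties of the profile -/
def BProps (η : ℝ) : Prop :=
    (∀ t, HasDerivAt (Bp η) (B1 η t) t) ∧ (∀ t, HasDerivAt (B1 η) (B2 η t) t) ∧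
    Continuous (B2 η) ∧ (∀ t, t ≤ η → Bp η t = 2 * η ∧ B1 η t = 0 ∧ B2 η t = 0) ∧
    (∀ t, 3 * η ≤ t → Bp η t = t ∧ B1 η t = 1 ∧ B2 η t = 0) ∧
    (∀ t, 0 ≤ B1 η t ∧ B1 η t ≤ 1 ∧ 0 ≤ B2 η t ∧ B2 η t ≤ 1 / η) ∧
    (∀ t, 2 * η ≤ Bp η t ∧ t ≤ Bp η t ∧ Bp η t ≤ max t (2 * η) + η)

section

variable {F Fl Fg Fll Flg Fgg Fllg : ℝ → ℝ → ℝ} {η : ℝ}

theorem BProps.cont0 (hB : BProps η) : Continuous (Bp η) :=
  continuous_iff_continuousAt.2 fun t => (hB.1 t).continuousAt

theorem BProps.cont1 (hB : BProps η) : Continuous (B1 η) :=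
  continuous_iff_continuousAt.2 fun t => (hB.2.1 t).continuousAt

theorem BProps.pos (hB : BProps η) (hη : 0 < η) (t : ℝ) : 0 < Bp η t := by
  have := (hB.2.2.2.2.2.2 t).1
  linarith

/-- composition with the profile is continuous on the whole plane -/
theorem cont_comp (hB : BProps η) (hη : 0 < η) {f : ℝ → ℝ → ℝ}
    (hf : ContinuousOn (fun x : ℝ × ℝ => f x.1 x.2) U) :
    Continuous (fun x : ℝ × ℝ => f x.1 (Bp η x.2)) := by
  have h1 := cont_max hf hη
  have h2 : (fun x : ℝ × ℝ => f x.1 (Bp η x.2)) =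
      (fun x : ℝ × ℝ => f x.1 (max x.2 η)) ∘ (fun x : ℝ × ℝ => (x.1, Bp η x.2)) := by
    funext x
    have : η ≤ Bp η x.2 := by
      have := (hB.2.2.2.2.2.2 x.2).1
      linarith
    simp [max_eq_left this]
  rw [h2]
  exact h1.comp (continuous_fst.prodMk (hB.cont0.comp continuous_snd))

theorem cont_wf (h : FData F Fl Fg Fll Flg Fgg Fllg) (hB : BProps η) (hη : 0 < η) :
    Continuous (fun x : ℝ × ℝ => wf Fg Fll Flg Fgg η x.1 x.2) := by
  unfold wf FFlg FFll FFgg
  have c1 := (hB.cont1).comp (continuous_snd : Continuous (fun x : ℝ × ℝ => x.2))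
  have c2 := (hB.2.2.1).comp (continuous_snd : Continuous (fun x : ℝ × ℝ => x.2))
  simp only [Function.comp_def] at c1 c2
  exact (((cont_comp hB hη h.clg).mul c1).pow 2).sub
    ((cont_comp hB hη h.cll).mul (((cont_comp hB hη h.cgg).mul (c1.pow 2)).add
      ((cont_comp hB hη h.cg).mul c2)))

theorem wf_low (hB : BProps η) (l t : ℝ) (ht : t ≤ η) : wf Fg Fll Flg Fgg η l t = 0 := by
  have h := hB.2.2.2.1 t ht
  unfold wf FFlg FFll FFgg
  rw [h.2.1, h.2.2]
  ring

/-- `q` is constant in `g` on `g ≤ η` -/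
theorem qf_cut (hB : BProps η) (l g : ℝ) :
    qf Fl Fg Fll Flg Fgg η l g = qf Fl Fg Fll Flg Fgg η l (max g η) := by
  rcases le_total η g with hg | hg
  · rw [max_eq_left hg]
  rw [max_eq_right hg]
  have h1 := hB.2.2.2.1 η le_rfl
  have hw : ∀ t ∈ uIcc η g, (g - t) *
      Pool.Agent.H15.EH.D (FFll Fll η) (FFlg Flg η) (FFgg Fg Fgg η) l t = 0 := by
    intro t ht
    rw [uIcc_of_ge hg] at ht
    have := wf_low (Fg := Fg) (Fll := Fll) (Flg := Flg) (Fgg := Fgg) hB l t ht.2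
    unfold wf at this
    unfold Pool.Agent.H15.EH.D
    rw [this, mul_zero]
  unfold qf Pool.Agent.H15.EH.q
  rw [intervalIntegral.integral_congr hw]
  have h2 : FFg Fg η l η = 0 := by
    unfold FFg
    rw [h1.2.1, mul_zero]
  rw [h2]
  simp

/-- `Φ l y = q l y` is continuous on the plane -/
theorem cont_qf (h : FData F Fl Fg Fll Flg Fgg Fllg) (hB : BProps η) (hη : 0 < η)
    (hFF : FData (FF F η) (FFl Fl η) (FFg Fg η) (FFll Fll η) (FFlg Flg η) (FFgg Fg Fgg η)
      (FFllg Fllg η)) :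
    Continuous (fun x : ℝ × ℝ => qf Fl Fg Fll Flg Fgg η x.1 x.2) := by
  have h1 := cont_max (hFF.cont_q hη) hη
  have h2 : (fun x : ℝ × ℝ => qf Fl Fg Fll Flg Fgg η x.1 x.2) =
      (fun x : ℝ × ℝ => qf Fl Fg Fll Flg Fgg η x.1 (max x.2 η)) := by
    funext x
    exact qf_cut hB x.1 x.2
  rw [h2]
  exact h1

theorem cont_circle (h : FData F Fl Fg Fll Flg Fgg Fllg) (hB : BProps η) (hη : 0 < η)
    (hFF : FData (FF F η) (FFl Fl η) (FFg Fg η) (FFll Fll η) (FFlg Flg η) (FFgg Fg Fgg η)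
      (FFllg Fllg η)) {y : ℝ × ℝ → ℝ} (hy : Continuous y) :
    Continuous (fun l : ℝ => ∫ φ in (0 : ℝ)..2 * π, qf Fl Fg Fll Flg Fgg η l (y (l, φ))) := by
  have h1 := cont_qf h hB hη hFF
  have h2 : Continuous (fun x : ℝ × ℝ => qf Fl Fg Fll Flg Fgg η x.1 (y x)) :=
    h1.comp (continuous_fst.prodMk hy)
  exact intervalIntegral.continuous_parametric_intervalIntegral_of_continuous'
    (f := fun l φ => qf Fl Fg Fll Flg Fgg η l (y (l, φ))) h2 0 (2 * π)

end

/-- layer integrals are continuous in the level -/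
theorem cont_J {y : ℝ × ℝ → ℝ} (hy : Continuous y) (l : ℝ) : Continuous (fun t => J y l t) := by
  unfold J
  have h2 : Continuous (fun x : ℝ × ℝ => max (y (l, x.2) - x.1) 0) := by fun_prop
  exact intervalIntegral.continuous_parametric_intervalIntegral_of_continuous'
    (f := fun t φ => max (y (l, φ) - t) 0) h2 0 (2 * π)

theorem J_zero {y : ℝ × ℝ → ℝ} {l t : ℝ} (h : ∀ φ, y (l, φ) ≤ t) : J y l t = 0 := by
  unfold J
  have : ∀ φ ∈ uIcc (0 : ℝ) (2 * π), max (y (l, φ) - t) 0 = 0 := by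
    intro φ _
    have := h φ
    exact max_eq_right (by linarith)
  rw [intervalIntegral.integral_congr this]
  simp

theorem Mx_mono {l l' : ℝ} (h : l ≤ l') : Mx l ≤ Mx l' := by
  unfold Mx
  have h1 : Real.exp l ≤ Real.exp l' := Real.exp_le_exp.2 h
  have h2 := Real.exp_pos l
  refine (Real.arcosh_le_arcosh ?_ ?_).2 ?_ <;> unfold rho <;> linarith

theorem Mx_pos (l : ℝ) : 0 < Mx l := by
  unfold Mx rho
  have := Real.exp_pos l
  exact Real.arcosh_pos (by linarith)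

theorem cosh_Mx (l : ℝ) : Real.cosh (Mx l) = 2 * rho l + 1 := by
  unfold Mx
  refine Real.cosh_arcosh ?_
  unfold rho
  have := Real.exp_pos l
  linarith

theorem cosh_mn (l : ℝ) : Real.cosh (mn l) = max 1 (2 * rho l - 1) := by
  unfold mn
  exact Real.cosh_arcosh (le_max_left _ _)

theorem mn_nonneg (l : ℝ) : 0 ≤ mn l := Real.arcosh_nonneg (le_max_left _ _)

/-- in the range -/
theorem in_range {l b : ℝ} (hb : 0 < b) (h1 : Real.log 4 ≤ l → mn l ≤ b) (h2 : b ≤ Mx l) :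
    |Real.cosh b - 2 * rho l| ≤ 1 := by
  rw [abs_le]
  constructor
  · rcases le_total (Real.log 4) l with hl | hl
    · have h3 : Real.cosh (mn l) ≤ Real.cosh b := by
        rw [Real.cosh_le_cosh, abs_of_nonneg (mn_nonneg l), abs_of_pos hb]
        exact h1 hl
      rw [cosh_mn] at h3
      have := le_max_right 1 (2 * rho l - 1)
      linarith
    · have h3 : rho l ≤ 1 := by
        unfold rho
        have : Real.exp l ≤ 4 := by
          calc Real.exp l ≤ Real.exp (Real.log 4) := Real.exp_le_exp.2 hl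
            _ = 4 := Real.exp_log (by norm_num)
        linarith
      have := Real.one_le_cosh b
      linarith
  · have h3 : Real.cosh b ≤ Real.cosh (Mx l) := by
      rw [Real.cosh_le_cosh, abs_of_pos (Mx_pos l), abs_of_pos hb]
      exact h2
    rw [cosh_Mx] at h3
    linarith

/-- `(l - log (4 p))² ≤ C (rho l - p)²` for `l ≥ l₁` -/
theorem log_rho {p : ℝ} (hp : 0 < p) (l₁ : ℝ) : ∃ C, 1 ≤ C ∧ ∀ l, l₁ ≤ l →
    (l - Real.log (4 * p)) ^ 2 ≤ C * (rho l - p) ^ 2 := by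
  set l₀ := Real.log (4 * p) with hl₀
  have e0 : Real.exp l₀ = 4 * p := Real.exp_log (by linarith)
  set m := min (Real.exp l₁) (4 * p) with hm
  have hm0 : 0 < m := lt_min (Real.exp_pos _) (by linarith)
  refine ⟨max 1 ((4 / m) ^ 2), le_max_left _ _, fun l hl => ?_⟩
  have key : m * |l - l₀| ≤ 4 * |rho l - p| := by
    have h4 : 4 * |rho l - p| = |Real.exp l - Real.exp l₀| := by
      rw [e0]
      unfold rho
      rw [show Real.exp l - 4 * p = 4 * (Real.exp l / 4 - p) by ring, abs_mul]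
      norm_num
    rw [h4]
    rcases le_total l₀ l with h | h
    · rw [abs_of_nonneg (by linarith : 0 ≤ l - l₀),
        abs_of_nonneg (by linarith [Real.exp_le_exp.2 h] : 0 ≤ Real.exp l - Real.exp l₀)]
      have h5 : Real.exp l = Real.exp l₀ * Real.exp (l - l₀) := by
        rw [← Real.exp_add]; ring_nf
      have h6 := Real.add_one_le_exp (l - l₀)
      have h7 : m ≤ Real.exp l₀ := by rw [e0]; exact min_le_right _ _
      have h8 : 0 ≤ l - l₀ := by linarith
      have h9 := Real.exp_pos l₀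
      calc m * (l - l₀) ≤ Real.exp l₀ * (l - l₀) := mul_le_mul_of_nonneg_right h7 h8
        _ ≤ Real.exp l₀ * (Real.exp (l - l₀) - 1) :=
            mul_le_mul_of_nonneg_left (by linarith) h9.le
        _ = Real.exp l - Real.exp l₀ := by rw [h5]; ring
    · rw [abs_of_nonpos (by linarith : l - l₀ ≤ 0),
        abs_of_nonpos (by linarith [Real.exp_le_exp.2 h] : Real.exp l - Real.exp l₀ ≤ 0)]
      have h5 : Real.exp l₀ = Real.exp l * Real.exp (l₀ - l) := by
        rw [← Real.exp_add]; ring_nf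
      have h6 := Real.add_one_le_exp (l₀ - l)
      have h7 : m ≤ Real.exp l := (min_le_left _ _).trans (Real.exp_le_exp.2 hl)
      have h8 : 0 ≤ l₀ - l := by linarith
      have h9 := Real.exp_pos l
      calc m * -(l - l₀) = m * (l₀ - l) := by ring
        _ ≤ Real.exp l * (l₀ - l) := mul_le_mul_of_nonneg_right h7 h8
        _ ≤ Real.exp l * (Real.exp (l₀ - l) - 1) :=
            mul_le_mul_of_nonneg_left (by linarith) h9.le
        _ = -(Real.exp l - Real.exp l₀) := by rw [h5]; ring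
  have k1 : |l - l₀| ≤ 4 / m * |rho l - p| := by
    rw [div_mul_eq_mul_div, le_div_iff₀ hm0]
    linarith
  calc (l - l₀) ^ 2 = |l - l₀| ^ 2 := (sq_abs _).symm
    _ ≤ (4 / m * |rho l - p|) ^ 2 := pow_le_pow_left₀ (abs_nonneg _) k1 2
    _ = (4 / m) ^ 2 * (rho l - p) ^ 2 := by rw [mul_pow, sq_abs]
    _ ≤ max 1 ((4 / m) ^ 2) * (rho l - p) ^ 2 :=
        mul_le_mul_of_nonneg_right (le_max_right _ _) (sq_nonneg _)

/-- the bound for the error term on `[η, 3η]` -/
theorem err_alg {K K' C₁ ρ s b e β E D : ℝ} (hs : 0 ≤ s) (he : 0 < e) (hb1 : 2 * e ≤ b)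
    (hb2 : b ≤ 4 * e) (hρ0 : 0 ≤ ρ) (hρ : ρ ≤ 2) (hC : 0 ≤ C₁) (hβ0 : 0 ≤ β) (hβ : β ≤ 1 / e)
    (hE0 : 0 ≤ E) (hE : E ≤ K * ρ * b / (s + b) ^ 3) (hD0 : 0 ≤ D)
    (hD : D ≤ |K'| * (C₁ * (s + b) ^ 2)) :
    2 * β * E * D ≤ 16 * |K| * |K'| * C₁ / (s + 2 * e) := by
  have hb : 0 < b := by linarith
  have hsb : 0 < s + b := by linarith
  have hE' : E ≤ |K| * 2 * b / (s + b) ^ 3 := by
    refine hE.trans ?_
    refine div_le_div_of_nonneg_right ?_ (by positivity)
    have h1 : K * ρ ≤ |K| * 2 := by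
      calc K * ρ ≤ |K| * ρ := mul_le_mul_of_nonneg_right (le_abs_self K) hρ0
        _ ≤ |K| * 2 := mul_le_mul_of_nonneg_left hρ (abs_nonneg K)
    exact mul_le_mul_of_nonneg_right h1 hb.le
  have h2 : E * D ≤ (|K| * 2 * b / (s + b) ^ 3) * (|K'| * (C₁ * (s + b) ^ 2)) :=
    mul_le_mul hE' hD hD0 (by positivity)
  have h3 : (|K| * 2 * b / (s + b) ^ 3) * (|K'| * (C₁ * (s + b) ^ 2)) =
      2 * |K| * |K'| * C₁ * (b / (s + b)) := by
    field_simp
  have h4 : b / (s + b) ≤ 4 * e / (s + 2 * e) := by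
    rw [div_le_div_iff₀ hsb (by linarith)]
    nlinarith
  have h5 : 2 * β * E * D ≤ 2 * (1 / e) * (2 * |K| * |K'| * C₁ * (4 * e / (s + 2 * e))) := by
    have h6 : E * D ≤ 2 * |K| * |K'| * C₁ * (4 * e / (s + 2 * e)) := by
      rw [h3] at h2
      exact h2.trans (mul_le_mul_of_nonneg_left h4 (by positivity))
    calc 2 * β * E * D = (2 * β) * (E * D) := by ring
      _ ≤ (2 * (1 / e)) * (2 * |K| * |K'| * C₁ * (4 * e / (s + 2 * e))) :=
        mul_le_mul (by linarith) h6 (by positivity) (by positivity)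
  refine h5.trans (le_of_eq ?_)
  field_simp
  ring

theorem cosh_le_two {b : ℝ} (h0 : 0 ≤ b) (h1 : b ≤ 1) : Real.cosh b ≤ 2 := by
  have h2 : Real.cosh b ≤ Real.cosh 1 := by
    rw [Real.cosh_le_cosh, abs_of_nonneg h0, abs_one]
    exact h1
  have h3 : Real.cosh 1 ≤ 2 := by
    rw [Real.cosh_eq]
    have h4 := Real.exp_one_lt_d9
    have h5 : Real.exp (-1) ≤ 1 := Real.exp_le_one_iff.2 (by norm_num)
    linarith
  linarith

/-- the error functions tend to `0` -/
theorem err_tendsto {p : ℝ} (hp : 0 < p) (l₁ l₂ C : ℝ) :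
    Tendsto (fun η : ℝ => ∫ l in l₁..l₂, C * (η / (|rho l - p| + 2 * η))) (𝓝[>] 0) (𝓝 0) := by
  have h0 : (∫ _l in l₁..l₂, (0 : ℝ)) = 0 := by simp
  suffices h : Tendsto (fun η : ℝ => ∫ l in l₁..l₂, C * (η / (|rho l - p| + 2 * η))) (𝓝[>] 0)
      (𝓝 (∫ _l in l₁..l₂, (0 : ℝ))) by rwa [h0] at h
  refine intervalIntegral.tendsto_integral_filter_of_dominated_convergence (fun _ => |C|)
    ?_ ?_ ?_ ?_
  · filter_upwards [self_mem_nhdsWithin] with η hη
    have hη' : (0 : ℝ) < η := hη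
    have : Continuous (fun l : ℝ => C * (η / (|rho l - p| + 2 * η))) := by
      refine continuous_const.mul (continuous_const.div ?_ ?_)
      · unfold rho
        fun_prop
      · intro l
        have := abs_nonneg (rho l - p)
        linarith
    exact this.aestronglyMeasurable
  · filter_upwards [self_mem_nhdsWithin] with η hη
    have hη' : (0 : ℝ) < η := hη
    refine Eventually.of_forall fun l _ => ?_
    have hs := abs_nonneg (rho l - p)
    rw [norm_mul, Real.norm_eq_abs, Real.norm_eq_abs,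
      abs_of_nonneg (by positivity : (0 : ℝ) ≤ η / (|rho l - p| + 2 * η))]
    have : η / (|rho l - p| + 2 * η) ≤ 1 := by
      rw [div_le_one (by linarith)]
      linarith
    calc |C| * (η / (|rho l - p| + 2 * η)) ≤ |C| * 1 :=
        mul_le_mul_of_nonneg_left this (abs_nonneg C)
      _ = |C| := mul_one _
  · simp
  · have hae : ∀ᵐ l : ℝ, l ≠ Real.log (4 * p) := by
      refine (measure_eq_zero_iff_ae_notMem (s := {Real.log (4 * p)})).1 (by simp) |>.mono ?_
      intro l hl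
      simpa using hl
    filter_upwards [hae] with l hl _
    have hs : 0 < |rho l - p| := by
      rw [abs_pos]
      intro h
      apply hl
      have : Real.exp l = 4 * p := by
        unfold rho at h
        linarith
      rw [← this, Real.log_exp]
    have h1 : Tendsto (fun η : ℝ => C * (η / (|rho l - p| + 2 * η))) (𝓝 0)
        (𝓝 (C * (0 / (|rho l - p| + 2 * 0)))) := by
      refine Tendsto.const_mul C (Tendsto.div tendsto_id ?_ (by simpa using hs.ne'))
      exact (tendsto_const_nhds).add (tendsto_id.const_mul 2)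
    simp only [mul_zero, add_zero, zero_div] at h1
    exact h1.mono_left nhdsWithin_le_nhds

/-- comparison on one circle -/
theorem circle_le {n : ℕ} {a : Fin n → ℂ} {p c : ℝ} (hT : Touch a p)
    {F Fl Fg Fll Flg Fgg Fllg : ℝ → ℝ → ℝ} (hF : FHyp p c F Fl Fg Fll Flg Fgg Fllg)
    (hBp : ∀ η, 0 < η → BProps η) (hyQ : YData (yQ a)) (hyV : YData yV)
    (hlay : ∀ (y : ℝ × ℝ → ℝ), YData y → ∀ (η : ℝ), 0 < η → ∀ l T : ℝ, η ≤ T →
      (∀ φ, y (l, φ) ≤ T) → (∫ φ in (0 : ℝ)..2 * π, qf Fl Fg Fll Flg Fgg η l (y (l, φ))) =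
      2 * π * Fl l (2 * η) ^ 2 + ∫ t in η..T, 2 * wf Fg Fll Flg Fgg η l t * J y l t)
    (hD1 : ∀ l t, 0 ≤ t → 0 ≤ Dd a l t)
    (hQM : ∀ l φ, yQ a (l, φ) ≤ Mx l) (hVM : ∀ l φ, yV (l, φ) ≤ Mx l)
    (hD0 : ∀ l t, Real.log 4 ≤ l → t ≤ mn l → Dd a l t = 0)
    (hD4 : ∀ l₁ : ℝ, ∃ K, ∀ l t, l₁ ≤ l → 0 ≤ t → t ≤ 1 →
      Dd a l t ≤ K * ((l - Real.log (4 * p)) ^ 2 + t ^ 2))
    (l₁ l₂ : ℝ) : ∃ C, ∀ η, 0 < η → 4 * η ≤ 1 → 4 * η ≤ Mx l₁ → ∀ l, l₁ ≤ l → l ≤ l₂ →
      (∫ φ in (0 : ℝ)..2 * π, qf Fl Fg Fll Flg Fgg η l (yQ a (l, φ))) -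
      (∫ φ in (0 : ℝ)..2 * π, qf Fl Fg Fll Flg Fgg η l (yV (l, φ))) ≤
        C * (η / (|rho l - p| + 2 * η)) := by
  obtain ⟨K, hK⟩ := hF.err
  obtain ⟨K', hK'⟩ := hD4 l₁
  obtain ⟨C₁, hC1, hC₁⟩ := log_rho hT.p0 l₁
  refine ⟨2 * (16 * |K| * |K'| * C₁), fun η hη h4 hM l hl1 hl2 => ?_⟩
  have hB := hBp η hη
  have hMl : Mx l₁ ≤ Mx l := Mx_mono hl1
  have hMT : Mx l ≤ Mx l₂ := Mx_mono hl2
  set T := Mx l₂ with hTdef
  have hηT : η ≤ T := by linarith
  rw [hlay _ hyQ η hη l T hηT (fun φ => (hQM l φ).trans hMT),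
    hlay _ hyV η hη l T hηT (fun φ => (hVM l φ).trans hMT)]
  have cw : Continuous (fun t => wf Fg Fll Flg Fgg η l t) :=
    (cont_wf hF.data hB hη).comp (continuous_const.prodMk continuous_id)
  have cQ := cont_J hyQ.cont l
  have cV := cont_J hyV.cont l
  have cD : Continuous (fun t => Dd a l t) := cV.sub cQ
  have i1 : IntervalIntegrable (fun t => 2 * wf Fg Fll Flg Fgg η l t * J (yQ a) l t) volume η T :=
    ((continuous_const.mul cw).mul cQ).intervalIntegrable _ _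
  have i2 : IntervalIntegrable (fun t => 2 * wf Fg Fll Flg Fgg η l t * J yV l t) volume η T :=
    ((continuous_const.mul cw).mul cV).intervalIntegrable _ _
  have e1 : (2 * π * Fl l (2 * η) ^ 2 + ∫ t in η..T, 2 * wf Fg Fll Flg Fgg η l t * J (yQ a) l t) -
      (2 * π * Fl l (2 * η) ^ 2 + ∫ t in η..T, 2 * wf Fg Fll Flg Fgg η l t * J yV l t) =
      ∫ t in η..T, -(2 * wf Fg Fll Flg Fgg η l t * Dd a l t) := by
    rw [add_sub_add_left_eq_sub, ← intervalIntegral.integral_sub i1 i2]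
    refine intervalIntegral.integral_congr fun t _ => ?_
    simp only [Dd]
    ring
  rw [e1]
  -- the dominating function
  set h : ℝ → ℝ := fun t => 2 * B2 η t * |Fll l (Bp η t) * Fg l (Bp η t)| * Dd a l t with hh
  have cB : Continuous (fun t : ℝ => Bp η t) := hB.cont0
  have ch : Continuous h := by
    have k1 : Continuous (fun t : ℝ => Fll l (Bp η t)) :=
      (cont_comp hB hη hF.data.cll).comp (continuous_const.prodMk continuous_id)
    have k2 : Continuous (fun t : ℝ => Fg l (Bp η t)) :=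
      (cont_comp hB hη hF.data.cg).comp (continuous_const.prodMk continuous_id)
    exact ((continuous_const.mul hB.2.2.1).mul (k1.mul k2).abs).mul cD
  -- off the range the defect vanishes
  have hrange : ∀ t, 0 ≤ t → Dd a l t ≠ 0 → t ≤ Mx l ∧ (Real.log 4 ≤ l → mn l < t) := by
    intro t ht hne
    refine ⟨?_, ?_⟩
    · by_contra hc
      push Not at hc
      apply hne
      unfold Dd
      rw [J_zero (fun φ => (hVM l φ).trans hc.le), J_zero (fun φ => (hQM l φ).trans hc.le), sub_zero]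
    · intro h4l
      by_contra hc
      push Not at hc
      exact hne (hD0 l t h4l hc)
  have hpt : ∀ t ∈ Icc η T, -(2 * wf Fg Fll Flg Fgg η l t * Dd a l t) ≤ h t := by
    intro t ht
    have ht0 : 0 ≤ t := hη.le.trans ht.1
    have hDt := hD1 l t ht0
    rcases eq_or_ne (Dd a l t) 0 with h0 | h0
    · simp [hh, h0]
    obtain ⟨r1, r2⟩ := hrange t ht0 h0
    have hb0 := hB.pos hη t
    have hb := hB.2.2.2.2.2.2 t
    have hbM : Bp η t ≤ Mx l := by
      rcases le_total (3 * η) t with h3 | h3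
      · rw [(hB.2.2.2.2.1 t h3).1]
        exact r1
      · have : max t (2 * η) ≤ 3 * η := max_le h3 (by linarith)
        linarith [hb.2.2]
    have hr := in_range hb0 (fun h4l => ((r2 h4l).le).trans hb.2.1) hbM
    have hdet := hF.sign l (Bp η t) hb0 hr
    have hBB := hB.2.2.2.2.2.1 t
    have hab := le_abs_self (Fll l (Bp η t) * Fg l (Bp η t))
    have w1 : -(2 * wf Fg Fll Flg Fgg η l t * Dd a l t) =
        -(2 * (B1 η t ^ 2 * (Flg l (Bp η t) ^ 2 - Fll l (Bp η t) * Fgg l (Bp η t))) * Dd a l t) +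
        2 * B2 η t * (Fll l (Bp η t) * Fg l (Bp η t)) * Dd a l t := by
      unfold wf FFlg FFll FFgg
      ring
    rw [w1, hh]
    have w2 : 0 ≤ 2 * (B1 η t ^ 2 * (Flg l (Bp η t) ^ 2 - Fll l (Bp η t) * Fgg l (Bp η t))) *
        Dd a l t := by positivity
    have w3 : 2 * B2 η t * (Fll l (Bp η t) * Fg l (Bp η t)) * Dd a l t ≤
        2 * B2 η t * |Fll l (Bp η t) * Fg l (Bp η t)| * Dd a l t := by
      refine mul_le_mul_of_nonneg_right ?_ hDt
      exact mul_le_mul_of_nonneg_left hab (by linarith [hBB.2.2.1])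
    linarith
  have i3 : IntervalIntegrable (fun t => -(2 * wf Fg Fll Flg Fgg η l t * Dd a l t)) volume η T :=
    ((continuous_const.mul cw).mul cD).neg.intervalIntegrable _ _
  have s1 : (∫ t in η..T, -(2 * wf Fg Fll Flg Fgg η l t * Dd a l t)) ≤ ∫ t in η..T, h t :=
    intervalIntegral.integral_mono_on hηT i3 (ch.intervalIntegrable _ _) hpt
  refine s1.trans ?_
  rw [← intervalIntegral.integral_add_adjacent_intervals (ch.intervalIntegrable η (3 * η))
    (ch.intervalIntegrable (3 * η) T)]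
  have s2 : (∫ t in (3 * η)..T, h t) = 0 := by
    have h3T : 3 * η ≤ T := by linarith
    have : ∀ t ∈ uIcc (3 * η) T, h t = 0 := by
      intro t ht
      rw [uIcc_of_le h3T] at ht
      simp [hh, (hB.2.2.2.2.1 t ht.1).2.2]
    rw [intervalIntegral.integral_congr this]
    simp
  rw [s2, add_zero]
  have hs := abs_nonneg (rho l - p)
  have s3 : ∀ t ∈ Icc η (3 * η), h t ≤ 16 * |K| * |K'| * C₁ / (|rho l - p| + 2 * η) := by
    intro t ht
    have ht0 : 0 ≤ t := hη.le.trans ht.1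
    have hDt := hD1 l t ht0
    have hC0 : 0 ≤ C₁ := by linarith
    rcases eq_or_ne (Dd a l t) 0 with h0 | h0
    · simp only [hh, h0, mul_zero]
      positivity
    obtain ⟨r1, r2⟩ := hrange t ht0 h0
    have hb0 := hB.pos hη t
    have hb := hB.2.2.2.2.2.2 t
    have hBB := hB.2.2.2.2.2.1 t
    have hb4 : Bp η t ≤ 4 * η := by
      have : max t (2 * η) ≤ 3 * η := max_le ht.2 (by linarith)
      linarith [hb.2.2]
    have hρc : rho l ≤ Real.cosh (Bp η t) := by
      have hct : Real.cosh t ≤ Real.cosh (Bp η t) := by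
        rw [Real.cosh_le_cosh, abs_of_nonneg ht0, abs_of_pos hb0]
        exact hb.2.1
      rcases le_total (Real.log 4) l with h4l | h4l
      · have q1 : Real.cosh (mn l) ≤ Real.cosh t := by
          rw [Real.cosh_le_cosh, abs_of_nonneg (mn_nonneg l), abs_of_nonneg ht0]
          exact (r2 h4l).le
        rw [cosh_mn] at q1
        have q2 := le_max_right 1 (2 * rho l - 1)
        have q3 : 1 ≤ rho l := by
          unfold rho
          have : (4 : ℝ) ≤ Real.exp l := by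
            calc (4 : ℝ) = Real.exp (Real.log 4) := (Real.exp_log (by norm_num)).symm
              _ ≤ Real.exp l := Real.exp_le_exp.2 h4l
          linarith
        linarith
      · have q3 : rho l ≤ 1 := by
          unfold rho
          have : Real.exp l ≤ 4 := by
            calc Real.exp l ≤ Real.exp (Real.log 4) := Real.exp_le_exp.2 h4l
              _ = 4 := Real.exp_log (by norm_num)
          linarith
        linarith [Real.one_le_cosh (Bp η t)]
    have hρ2 : rho l ≤ 2 := hρc.trans (cosh_le_two hb0.le (by linarith))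
    have hρ0 : 0 ≤ rho l := by unfold rho; positivity
    have hDb : Dd a l t ≤ |K'| * (C₁ * (|rho l - p| + Bp η t) ^ 2) := by
      have q1 := hK' l t hl1 ht0 (by linarith [ht.2])
      have q2 : (l - Real.log (4 * p)) ^ 2 + t ^ 2 ≤ C₁ * (|rho l - p| + Bp η t) ^ 2 := by
        have q3 := hC₁ l hl1
        have q4 : t ^ 2 ≤ (Bp η t) ^ 2 := pow_le_pow_left₀ ht0 hb.2.1 2
        have q5 : (rho l - p) ^ 2 = |rho l - p| ^ 2 := (sq_abs _).symm
        rw [q5] at q3
        nlinarith [mul_nonneg hC0 (mul_nonneg hs hb0.le), sq_nonneg (Bp η t)]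
      calc Dd a l t ≤ K' * ((l - Real.log (4 * p)) ^ 2 + t ^ 2) := q1
        _ ≤ |K'| * ((l - Real.log (4 * p)) ^ 2 + t ^ 2) :=
            mul_le_mul_of_nonneg_right (le_abs_self _) (by positivity)
        _ ≤ |K'| * (C₁ * (|rho l - p| + Bp η t) ^ 2) :=
            mul_le_mul_of_nonneg_left q2 (abs_nonneg _)
    exact err_alg hs hη hb.1 hb4 hρ0 hρ2 hC0 hBB.2.2.1 hBB.2.2.2 (abs_nonneg _)
      (hK l (Bp η t) hρc hb0 (by linarith)) hDt hDb
  have s4 : (∫ t in η..(3 * η), h t) ≤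
      ∫ _t in η..(3 * η), 16 * |K| * |K'| * C₁ / (|rho l - p| + 2 * η) :=
    intervalIntegral.integral_mono_on (by linarith) (ch.intervalIntegrable _ _)
      (continuous_const.intervalIntegrable _ _) s3
  refine s4.trans (le_of_eq ?_)
  rw [intervalIntegral.integral_const, smul_eq_mul]
  ring

/-- (C) `compare` with the other blocks as hypotheses -/
theorem compare_of {n : ℕ} {a : Fin n → ℂ} {p c : ℝ} (hT : Touch a p)
    {F Fl Fg Fll Flg Fgg Fllg : ℝ → ℝ → ℝ} (hF : FHyp p c F Fl Fg Fll Flg Fgg Fllg)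
    (hBp : ∀ η, 0 < η → BProps η)
    (hFF : ∀ η, 0 < η → FData (FF F η) (FFl Fl η) (FFg Fg η) (FFll Fll η) (FFlg Flg η)
      (FFgg Fg Fgg η) (FFllg Fllg η))
    (hyQ : YData (yQ a)) (hyV : YData yV)
    (hlay : ∀ (y : ℝ × ℝ → ℝ), YData y → ∀ (η : ℝ), 0 < η → ∀ l T : ℝ, η ≤ T →
      (∀ φ, y (l, φ) ≤ T) → (∫ φ in (0 : ℝ)..2 * π, qf Fl Fg Fll Flg Fgg η l (y (l, φ))) =
      2 * π * Fl l (2 * η) ^ 2 + ∫ t in η..T, 2 * wf Fg Fll Flg Fgg η l t * J y l t)
    (hD1 : ∀ l t, 0 ≤ t → 0 ≤ Dd a l t)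
    (hQM : ∀ l φ, yQ a (l, φ) ≤ Mx l) (hVM : ∀ l φ, yV (l, φ) ≤ Mx l)
    (hD0 : ∀ l t, Real.log 4 ≤ l → t ≤ mn l → Dd a l t = 0)
    (hD4 : ∀ l₁ : ℝ, ∃ K, ∀ l t, l₁ ≤ l → 0 ≤ t → t ≤ 1 →
      Dd a l t ≤ K * ((l - Real.log (4 * p)) ^ 2 + t ^ 2))
    (l₁ l₂ : ℝ) (hl : l₁ ≤ l₂) (ε : ℝ) (hε : 0 < ε) : ∃ η₀, 0 < η₀ ∧ ∀ η, 0 < η → η ≤ η₀ →
    (∫ l in l₁..l₂, ∫ φ in (0 : ℝ)..2 * π, qf Fl Fg Fll Flg Fgg η l (yQ a (l, φ))) ≤
      (∫ l in l₁..l₂, ∫ φ in (0 : ℝ)..2 * π, qf Fl Fg Fll Flg Fgg η l (yV (l, φ))) + ε := by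
  obtain ⟨C, hC⟩ := circle_le hT hF hBp hyQ hyV hlay hD1 hQM hVM hD0 hD4 l₁ l₂
  have ht := (err_tendsto hT.p0 l₁ l₂ C).eventually (gt_mem_nhds hε)
  rw [eventually_nhdsWithin_iff, Metric.eventually_nhds_iff] at ht
  obtain ⟨δ, hδ, ht⟩ := ht
  have hM := Mx_pos l₁
  refine ⟨min (δ / 2) (min (1 / 4) (Mx l₁ / 4)), by positivity, fun η hη hle => ?_⟩
  have h1 : η ≤ δ / 2 := hle.trans (min_le_left _ _)
  have h2 : η ≤ 1 / 4 := hle.trans ((min_le_right _ _).trans (min_le_left _ _))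
  have h3 : η ≤ Mx l₁ / 4 := hle.trans ((min_le_right _ _).trans (min_le_right _ _))
  have h4 := ht (y := η) (by rw [Real.dist_eq, sub_zero, abs_of_pos hη]; linarith) hη
  have hB := hBp η hη
  have cQ := cont_circle hF.data hB hη (hFF η hη) hyQ.cont
  have cV := cont_circle hF.data hB hη (hFF η hη) hyV.cont
  have cE : Continuous (fun l : ℝ => C * (η / (|rho l - p| + 2 * η))) := by
    refine continuous_const.mul (continuous_const.div ?_ ?_)
    · unfold rho
      fun_prop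
    · intro l
      have := abs_nonneg (rho l - p)
      linarith
  have h5 : (∫ l in l₁..l₂, ((∫ φ in (0 : ℝ)..2 * π, qf Fl Fg Fll Flg Fgg η l (yQ a (l, φ))) -
      (∫ φ in (0 : ℝ)..2 * π, qf Fl Fg Fll Flg Fgg η l (yV (l, φ))))) ≤
      ∫ l in l₁..l₂, C * (η / (|rho l - p| + 2 * η)) := by
    refine intervalIntegral.integral_mono_on hl ((cQ.sub cV).intervalIntegrable _ _)
      (cE.intervalIntegrable _ _) fun l hl' => ?_
    exact hC η hη (by linarith) (by linarith) l hl'.1 hl'.2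
  rw [intervalIntegral.integral_sub (cQ.intervalIntegrable _ _) (cV.intervalIntegrable _ _)] at h5
  linarith

end Pool.Agent.H51.EH
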