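import Pool.Agent.H24.EH.Lvl
import Pool.Agent.H22.EH.Reg2
import Pool.Agent.H93.EH.Yb
import Pool.Agent.H15.EH.A24
import Pool.Agent.H51.EH.Cmp

/-!
# EHP (S06849): the handover to the capacity part, directly from `EnergyCoord`

`handover_direct`: for the set `A = {|Q| ≤ e^{-nd}} ∩ S`, `S` inside (outside) of the touching circle, the test function
`u z = Ft |z| (Bp η (gQ z))` satisfies `Handover A c`.
-/

set_option autoImplicit false

open MeasureTheory Set Filter Topology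
open scoped Real NNReal

noncomputable section

namespace Pool.Agent.H51.EH

open Pool.Agent.H24.EH
open Pool.Agent.H22.EH (LevelFn tg energy_tg)

variable {n : ℕ} {a : Fin n → ℂ}

theorem gQ_zero_of_le {z : ℂ} (h : ‖∏ j, (z - a j)‖ ≤ 1) : gQ a z = 0 := by
  unfold gQ
  have : Real.posLog ‖∏ j, (z - a j)‖ = 0 := by
    unfold Real.posLog
    exact max_eq_left (Real.log_nonpos (norm_nonneg _) h)
  rw [this, mul_zero]

theorem levelFn_gQ (a : Fin n → ℂ) {η : ℝ} (hη : 0 < η) : LevelFn (gQ a) η := by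
  intro z
  rcases le_or_gt ‖∏ j, (z - a j)‖ 1 with h | h
  · right
    have h0 := gQ_zero_of_le (a := a) h
    have hc := (Pool.Agent.H93.EH.continuous_gQ a).continuousAt (x := z)
    have := hc.eventually (gt_mem_nhds (show gQ a z < η by rw [h0]; exact hη))
    filter_upwards [this] with w hw using hw.le
  · left
    intro m
    have hcd : ContDiff ℝ m (fun w : ℂ => ∏ j, (w - a j)) := by
      exact contDiff_prod fun j _ => contDiff_id.sub contDiff_const
    have hne : (∏ j, (z - a j)) ≠ 0 := by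
      intro h0
      rw [h0, norm_zero] at h
      linarith
    have h1 : ContDiffAt ℝ m (fun w : ℂ => (1 / (n : ℝ)) * Real.log ‖∏ j, (w - a j)‖) z := by
      refine contDiffAt_const.mul (ContDiffAt.log ?_ (norm_ne_zero_iff.2 hne))
      exact (hcd.contDiffAt).norm ℝ hne
    refine h1.congr_of_eventuallyEq ?_
    have hev : ∀ᶠ w in 𝓝 z, 1 < ‖∏ j, (w - a j)‖ :=
      (hcd.continuous.norm.continuousAt (x := z)).eventually (lt_mem_nhds h)
    filter_upwards [hev] with w hw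
    unfold gQ Real.posLog
    rw [max_eq_right (Real.log_nonneg hw.le)]

/-- Lipschitz bound near the centre, from the bound of `F_l` -/
theorem lip_inner {F Fl : ℝ → ℝ → ℝ} {Ft : ℝ → ℝ → ℝ} (hFt : ∀ l g, F l g = Ft (Real.exp l) g)
    {g r₁ K : ℝ} (hr₁ : 0 < r₁) (hd : ∀ l, HasDerivAt (fun x => F x g) (Fl l g) l)
    (hb : ∀ l, Real.exp l ≤ r₁ → |Fl l g| ≤ K * rho l) {L : ℝ≥0}
    (hL : LipschitzOnWith L (fun r => Ft r g) (Icc 0 r₁)) :
    LipschitzOnWith (Real.toNNReal (K / 4)) (fun r => Ft r g) (Icc 0 r₁) := by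
  have key : ∀ r ∈ Icc (0 : ℝ) r₁, ∀ s ∈ Icc (0 : ℝ) r₁, r < s →
      |Ft s g - Ft r g| ≤ K / 4 * (s - r) := by
    intro r hr s hs hrs
    obtain ⟨c, hc, hc'⟩ := exists_hasDerivAt_eq_slope (fun r => Ft r g)
      (fun r => Fl (Real.log r) g / r) hrs
      (hL.continuousOn.mono (Icc_subset_Icc hr.1 hs.2)) (by
        intro x hx
        have hx0 : 0 < x := hr.1.trans_lt hx.1
        have h1 := (hd (Real.log x)).comp x (Real.hasDerivAt_log hx0.ne')
        have h2 : (fun r => Ft r g) =ᶠ[𝓝 x] (fun x => F x g) ∘ Real.log := by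
          filter_upwards [lt_mem_nhds hx0] with y hy
          simp only [Function.comp_apply]
          rw [hFt, Real.exp_log hy]
        exact (h1.congr_of_eventuallyEq h2))
    have hc0 : 0 < c := hr.1.trans_lt hc.1
    have h3 : |Fl (Real.log c) g / c| ≤ K / 4 := by
      have h4 := hb (Real.log c) (by rw [Real.exp_log hc0]; exact hc.2.le.trans hs.2)
      unfold rho at h4
      rw [Real.exp_log hc0] at h4
      rw [abs_div, abs_of_pos hc0, div_le_iff₀ hc0]
      linarith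
    rw [hc', abs_div, abs_of_pos (by linarith : 0 < s - r), div_le_iff₀ (by linarith)] at h3
    exact h3
  refine LipschitzOnWith.of_dist_le_mul fun r hr s hs => ?_
  have hK : K / 4 ≤ ((Real.toNNReal (K / 4) : ℝ≥0) : ℝ) := Real.le_coe_toNNReal _
  rw [Real.dist_eq, Real.dist_eq]
  rcases lt_trichotomy r s with h | h | h
  · rw [abs_sub_comm, abs_sub_comm r s, abs_of_pos (by linarith : 0 < s - r)]
    exact (key r hr s hs h).trans (mul_le_mul_of_nonneg_right hK (by linarith))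
  · subst h
    simp
  · rw [abs_of_pos (by linarith : 0 < r - s)]
    exact (key s hs r hr h).trans (mul_le_mul_of_nonneg_right hK (by linarith))

theorem exists_ex {z : ℂ} {l : ℝ} (hz : ‖z‖ = Real.exp l) : ∃ φ, z = ex (l, φ) := by
  refine ⟨Complex.arg z, ?_⟩
  have h1 := Complex.norm_mul_exp_arg_mul_I z
  unfold ex
  simp only
  rw [Complex.exp_add, ← Complex.ofReal_exp, ← hz, h1]

theorem norm_ex (x : ℝ × ℝ) : ‖ex x‖ = Real.exp x.1 := by
  unfold ex
  rw [Complex.norm_exp]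
  simp

/-- `mn l ≥ 1` for `l ≥ log 8` -/
theorem one_le_mn {l : ℝ} (h : Real.log 8 ≤ l) : 1 ≤ mn l := by
  have h1 : (8 : ℝ) ≤ Real.exp l := by
    calc (8 : ℝ) = Real.exp (Real.log 8) := (Real.exp_log (by norm_num)).symm
      _ ≤ Real.exp l := Real.exp_le_exp.2 h
  have h2 : Real.cosh 1 ≤ Real.cosh (mn l) := by
    rw [cosh_mn]
    have h3 := cosh_le_two (b := 1) (by norm_num) le_rfl
    have h4 := le_max_right 1 (2 * rho l - 1)
    unfold rho at h4 ⊢
    linarith
  rw [Real.cosh_le_cosh, abs_one, abs_of_nonneg (mn_nonneg l)] at h2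
  exact h2

/-- the handover, directly from the energy bound in coordinates -/
theorem handover_direct {p c : ℝ} (hT : Touch a p)
    {F Fl Fg Fll Flg Fgg Fllg : ℝ → ℝ → ℝ} (hF : FHyp p c F Fl Fg Fll Flg Fgg Fllg)
    (hE : EnergyCoord a c F) (hP : PolarLip F) (S : Set ℂ)
    (hS : (∀ z ∈ S, ‖z‖ < 4 * p) ∧ (∀ δ, 0 < δ → SmallOn (fun l => rho l ≤ p - δ) F Fl) ∨
      (∀ z ∈ S, 4 * p < ‖z‖) ∧
        (∀ δ, 0 < δ → SmallOn (fun l => p + δ ≤ rho l ∧ rho l ≤ 1) F Fl))
    {d : ℝ} (hd : 0 < d) :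
    Handover ({z | ‖∏ j, (z - a j)‖ ≤ Real.exp (-(n * d))} ∩ S) c := by
  intro ε hε R₁
  have hpi := Real.pi_pos
  obtain ⟨Ft, hFt, hFtL⟩ := hP
  obtain ⟨K₁, hK₁⟩ := hF.right
  obtain ⟨K₂, hK₂⟩ := hF.left
  obtain ⟨δ, hδ, hgap⟩ := Pool.Agent.H93.EH.touch_gap hT hd
  -- smallness on the part
  obtain ⟨K₃, hK₃⟩ : ∃ K, ∀ z ∈ ({z | ‖∏ j, (z - a j)‖ ≤ Real.exp (-(n * d))} ∩ S), ∀ l g,
      Real.exp l = ‖z‖ → 0 < g → g ≤ 1 → |F l g| ≤ K * g := by
    rcases hS with ⟨h1, h2⟩ | ⟨h1, h2⟩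
    · obtain ⟨K, hK⟩ := h2 δ hδ
      refine ⟨K, fun z hz l g hl hg hg1 => (hK l g ?_ hg hg1).1⟩
      rcases hgap z hz.1 with h3 | h3
      · unfold rho
        rw [hl]
        exact h3
      · have := h1 z hz.2
        linarith [h3.1]
    · obtain ⟨K, hK⟩ := h2 δ hδ
      refine ⟨K, fun z hz l g hl hg hg1 => (hK l g ?_ hg hg1).1⟩
      rcases hgap z hz.1 with h3 | h3
      · have := h1 z hz.2
        linarith
      · unfold rho
        rw [hl]
        exact h3
  -- smallness at the centre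
  obtain ⟨K₄, hK₄⟩ : ∃ K, (0 : ℂ) ∈ ({z | ‖∏ j, (z - a j)‖ ≤ Real.exp (-(n * d))} ∩ S) →
      ∀ g, 0 < g → g ≤ 1 → Ft 0 g ≤ K * g := by
    rcases hS with ⟨h1, h2⟩ | ⟨h1, h2⟩
    · have hp2 : 0 < p / 2 := by linarith [hT.p0]
      obtain ⟨K, hK⟩ := h2 (p / 2) hp2
      refine ⟨K, fun _ g hg hg1 => ?_⟩
      obtain ⟨L, hL⟩ := hFtL g hg 1 one_pos
      have hcont : ContinuousWithinAt (fun r => Ft r g) (Icc 0 1) 0 :=
        hL.continuousOn 0 ⟨le_rfl, zero_le_one⟩
      have hlim : Tendsto (fun r => Ft r g) (𝓝[>] 0) (𝓝 (Ft 0 g)) := by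
        refine hcont.tendsto.mono_left ?_
        rw [← nhdsWithin_Ioc_eq_nhdsGT (zero_lt_one' ℝ)]
        exact nhdsWithin_mono _ Ioc_subset_Icc_self
      refine le_of_tendsto hlim ?_
      have : ∀ᶠ r : ℝ in 𝓝[>] 0, r < 2 * p :=
        (gt_mem_nhds (by linarith [hT.p0] : (0 : ℝ) < 2 * p)).filter_mono nhdsWithin_le_nhds
      filter_upwards [this, self_mem_nhdsWithin] with r hr hr0
      have hr0' : (0 : ℝ) < r := hr0
      have h3 := (hK (Real.log r) g (by
        show rho (Real.log r) ≤ p - p / 2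
        unfold rho
        rw [Real.exp_log hr0']
        linarith) hg hg1).1
      rw [hFt, Real.exp_log hr0'] at h3
      exact (le_abs_self _).trans h3
    · refine ⟨0, fun h0 => ?_⟩
      have := h1 0 h0.2
      rw [norm_zero] at this
      linarith [hT.p0]
  -- choice of `l₂`
  obtain ⟨L, hL⟩ := hE (ε / 2) (by linarith)
  obtain ⟨L', hL'⟩ : ∃ L', ∀ l, L' ≤ l → |K₁| * Real.exp (-l) < ε := by
    have h1 : Tendsto (fun l : ℝ => |K₁| * Real.exp (-l)) atTop (𝓝 0) := by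
      simpa using Real.tendsto_exp_neg_atTop_nhds_zero.const_mul (|K₁|)
    exact eventually_atTop.1 (h1.eventually (gt_mem_nhds hε))
  set l₂ := max (max L L') (max (Real.log 8) R₁) with hl₂
  have l2a : L ≤ l₂ := (le_max_left _ _).trans (le_max_left _ _)
  have l2b : L' ≤ l₂ := (le_max_right _ _).trans (le_max_left _ _)
  have l2c : Real.log 8 ≤ l₂ := (le_max_left _ _).trans (le_max_right _ _)
  have l2d : R₁ ≤ l₂ := (le_max_right _ _).trans (le_max_right _ _)
  obtain ⟨L₁, hL₁⟩ := hL l₂ l2a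
  -- near the centre `gQ = 0`
  obtain ⟨r₀, hr₀, hr₀'⟩ : ∃ r₀ > 0, ∀ z : ℂ, ‖z‖ < r₀ → gQ a z = 0 := by
    have hc : Continuous (fun z : ℂ => ‖∏ j, (z - a j)‖) :=
      (continuous_finset_prod _ fun j _ => continuous_id.sub continuous_const).norm
    have h0 : ‖∏ j, ((0 : ℂ) - a j)‖ < 1 := by
      rw [norm_prod]
      simpa using hT.a0
    have := (hc.continuousAt (x := 0)).eventually (gt_mem_nhds h0)
    obtain ⟨r, hr, h⟩ := Metric.eventually_nhds_iff.1 this
    exact ⟨r, hr, fun z hz => gQ_zero_of_le (h (by simpa using hz)).le⟩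
  -- choice of `l₁`
  obtain ⟨L₃, hL₃⟩ : ∃ L₃, ∀ l, l ≤ L₃ →
      ((Real.toNNReal (|K₂| / 4) : ℝ≥0) : ℝ) ^ 2 * (π * Real.exp (2 * l)) < π * ε := by
    have h1 : Tendsto (fun l : ℝ => ((Real.toNNReal (|K₂| / 4) : ℝ≥0) : ℝ) ^ 2 *
        (π * Real.exp (2 * l))) atBot (𝓝 0) := by
      have h2 : Tendsto (fun l : ℝ => Real.exp (2 * l)) atBot (𝓝 0) :=
        Real.tendsto_exp_atBot.comp (tendsto_id.const_mul_atBot (by norm_num))
      simpa using (h2.const_mul π).const_mul (((Real.toNNReal (|K₂| / 4) : ℝ≥0) : ℝ) ^ 2)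
    exact eventually_atBot.1 (h1.eventually (gt_mem_nhds (by positivity)))
  set l₁ := min (min L₁ L₃) (min (min (Real.log r₀) (Real.log (2 * p))) l₂) with hl₁
  have l1a : l₁ ≤ L₁ := (min_le_left _ _).trans (min_le_left _ _)
  have l1b : l₁ ≤ L₃ := (min_le_left _ _).trans (min_le_right _ _)
  have l1c : l₁ ≤ Real.log r₀ :=
    (min_le_right _ _).trans ((min_le_left _ _).trans (min_le_left _ _))
  have l1d : l₁ ≤ Real.log (2 * p) :=
    (min_le_right _ _).trans ((min_le_left _ _).trans (min_le_right _ _))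
  have l1e : l₁ ≤ l₂ := (min_le_right _ _).trans (min_le_right _ _)
  obtain ⟨η₀, hη₀, hen⟩ := hL₁ l₁ l1a
  -- choice of `η`
  obtain ⟨η, hη, hηa, hηb, hηc, hηd⟩ : ∃ η, 0 < η ∧ η ≤ η₀ ∧ η ≤ 1 / 4 ∧
      |K₃| * (2 * η) ≤ ε ∧ |K₄| * (2 * η) ≤ ε := by
    refine ⟨min (min η₀ (1 / 4)) (min (ε / (2 * (|K₃| + 1))) (ε / (2 * (|K₄| + 1)))),
      by positivity, (min_le_left _ _).trans (min_le_left _ _),
      (min_le_left _ _).trans (min_le_right _ _), ?_, ?_⟩
    · have h1 := (min_le_right (min η₀ (1 / 4)) (min (ε / (2 * (|K₃| + 1)))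
        (ε / (2 * (|K₄| + 1))))).trans (min_le_left _ _)
      have h2 := abs_nonneg K₃
      calc |K₃| * (2 * _) ≤ |K₃| * (2 * (ε / (2 * (|K₃| + 1)))) :=
            mul_le_mul_of_nonneg_left (mul_le_mul_of_nonneg_left h1 zero_le_two) h2
        _ = ε * (|K₃| / (|K₃| + 1)) := by field_simp
        _ ≤ ε * 1 := mul_le_mul_of_nonneg_left (by
            rw [div_le_one (by linarith)]; linarith) hε.le
        _ = ε := mul_one _
    · have h1 := (min_le_right (min η₀ (1 / 4)) (min (ε / (2 * (|K₃| + 1)))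
        (ε / (2 * (|K₄| + 1))))).trans (min_le_right _ _)
      have h2 := abs_nonneg K₄
      calc |K₄| * (2 * _) ≤ |K₄| * (2 * (ε / (2 * (|K₄| + 1)))) :=
            mul_le_mul_of_nonneg_left (mul_le_mul_of_nonneg_left h1 zero_le_two) h2
        _ = ε * (|K₄| / (|K₄| + 1)) := by field_simp
        _ ≤ ε * 1 := mul_le_mul_of_nonneg_left (by
            rw [div_le_one (by linarith)]; linarith) hε.le
        _ = ε := mul_one _
  have hB := Pool.Agent.H15.EH.Bp_props η hη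
  have hB0 : Continuous (Bp η) := BProps.cont0 hB
  -- the test function
  set FFc : ℝ × ℝ → ℝ := fun x => FF F η x.1 x.2 with hFFc
  set ψ : ℝ → ℝ := fun r => Ft r (2 * η) with hψ
  have cFF : ContDiff ℝ 1 FFc := by
    have h1 := hF.data.F_contDiffOn
    have h2 : ContDiff ℝ 1 (Bp η) := by
      have := Pool.Agent.H15.EH.contDiff_Bp hη
      rw [← Pool.Agent.H15.EH.Bp_eq] at this
      exact this.of_le (by norm_num)
    exact h1.comp_contDiff (f := fun x : ℝ × ℝ => (x.1, Bp η x.2))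
      (contDiff_fst.prodMk (h2.comp contDiff_snd)) (fun x => BProps.pos hB hη x.2)
  have hlow : ∀ t, t ≤ η → Bp η t = 2 * η := fun t ht => (hB.2.2.2.1 t ht).1
  have hc : ∀ l t, t ≤ η → FFc (l, t) = FFc (l, η) := by
    intro l t ht
    simp only [hFFc, FF]
    rw [hlow t ht, hlow η le_rfl]
  have hψ' : ∀ r, 0 < r → FFc (Real.log r, η) = ψ r := by
    intro r hr
    simp only [hFFc, FF, hψ]
    rw [hlow η le_rfl, hFt, Real.exp_log hr]
  have hlev := levelFn_gQ a hη
  have h2η : 0 < 2 * η := by linarith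
  have h2η1 : 2 * η ≤ 1 := by linarith
  obtain ⟨La, hLa⟩ := hFtL (2 * η) h2η (Real.exp l₂) (Real.exp_pos _)
  obtain ⟨Lb, hLb⟩ := hFtL (2 * η) h2η (Real.exp l₁) (Real.exp_pos _)
  have h0 : ∀ z : ℂ, ‖z‖ < Real.exp l₁ → gQ a z ≤ η := by
    intro z hz
    have : ‖z‖ < r₀ := by
      refine hz.trans_le ?_
      calc Real.exp l₁ ≤ Real.exp (Real.log r₀) := Real.exp_le_exp.2 l1c
        _ = r₀ := Real.exp_log hr₀
    rw [hr₀' z this]
    exact hη.le
  have hL1 : LipschitzOnWith (Real.toNNReal (|K₂| / 4)) ψ (Icc 0 (Real.exp l₁)) := by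
    refine lip_inner hFt (Real.exp_pos _) (fun l => hF.data.dl l (2 * η) h2η) (fun l hl => ?_) hLb
    have h3 : rho l ≤ p / 2 := by
      unfold rho
      have : Real.exp l₁ ≤ 2 * p := by
        calc Real.exp l₁ ≤ Real.exp (Real.log (2 * p)) := Real.exp_le_exp.2 l1d
          _ = 2 * p := Real.exp_log (by linarith [hT.p0])
      linarith
    have h4 := (hK₂ l (2 * η) h3 h2η h2η1).1
    refine h4.trans (mul_le_mul_of_nonneg_right (le_abs_self _) ?_)
    unfold rho
    positivity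
  obtain ⟨⟨K, hK⟩, hEn⟩ := energy_tg cFF hc hψ' hlev l1e h0 hL1 hLa
  refine ⟨Real.exp l₂, K, tg FFc ψ (gQ a), ?_, hK, ?_, ?_, ?_, ?_⟩
  · have := Real.add_one_le_exp l₂
    linarith
  · -- boundary
    intro z hz
    obtain ⟨φ, rfl⟩ := exists_ex hz
    have hne : ex (l₂, φ) ≠ 0 := by
      intro h
      rw [h, norm_zero] at hz
      linarith [Real.exp_pos l₂]
    rw [Real.log_exp]
    unfold tg
    rw [if_neg hne, hz, Real.log_exp]
    have h48 : Real.log 4 ≤ l₂ := (Real.log_le_log (by norm_num) (by norm_num)).trans l2c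
    have k1 := Pool.Agent.H93.EH.le_yQ hT l₂ φ h48
    have k2 := Pool.Agent.H93.EH.yQ_le hT l₂ φ
    have k3 := one_le_mn l2c
    have k4 : gQ a (ex (l₂, φ)) = yQ a (l₂, φ) := rfl
    simp only [hFFc, FF]
    rw [k4, (hB.2.2.2.2.1 _ (by linarith)).1]
    have k5 : |Real.cosh (yQ a (l₂, φ)) - 2 * rho l₂| ≤ 1 :=
      in_range (by linarith) (fun _ => k1) k2
    have k6 := (hK₁ l₂ (yQ a (l₂, φ)) l2c (by linarith) k5).2.2.2.2
    have k7 := abs_le.1 k6
    have k8 := hL' l₂ l2b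
    have k9 : K₁ * Real.exp (-l₂) ≤ |K₁| * Real.exp (-l₂) :=
      mul_le_mul_of_nonneg_right (le_abs_self _) (Real.exp_pos _).le
    linarith [k7.1]
  · -- integrability
    have hm : Measurable (gsq (tg FFc ψ (gQ a))) := by
      unfold gsq
      exact ((measurable_fderiv_apply_const ℝ _ _).pow_const 2).add
        ((measurable_fderiv_apply_const ℝ _ _).pow_const 2)
    refine IntegrableOn.of_bound measure_ball_lt_top hm.aestronglyMeasurable
      (2 * (K : ℝ) ^ 2) ?_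
    refine (ae_restrict_iff' Metric.isOpen_ball.measurableSet).2 (Filter.Eventually.of_forall ?_)
    intro z hz
    have hb : ‖fderiv ℝ (tg FFc ψ (gQ a)) z‖ ≤ K :=
      norm_fderiv_le_of_lipschitzOn ℝ (Metric.isOpen_ball.mem_nhds hz)
        (hK.mono Metric.ball_subset_closedBall)
    have b1 := (fderiv ℝ (tg FFc ψ (gQ a)) z).le_opNorm 1
    have b2 := (fderiv ℝ (tg FFc ψ (gQ a)) z).le_opNorm Complex.I
    rw [norm_one, mul_one] at b1
    rw [Complex.norm_I, mul_one] at b2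
    have b3 := pow_le_pow_left₀ (norm_nonneg _) (b1.trans hb) 2
    have b4 := pow_le_pow_left₀ (norm_nonneg _) (b2.trans hb) 2
    rw [Real.norm_eq_abs, sq_abs] at b3 b4
    rw [Real.norm_eq_abs, abs_of_nonneg (by unfold gsq; positivity)]
    unfold gsq
    linarith
  · -- energy
    have k1 := hen η hη hηa
    have k2 := hL₃ l₁ l1b
    have k3 : (∫ z in Metric.ball (0 : ℂ) (Real.exp l₂), gsq (tg FFc ψ (gQ a)) z) ≤
        ((Real.toNNReal (|K₂| / 4) : ℝ≥0) : ℝ) ^ 2 * (π * Real.exp (2 * l₁)) +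
          En (FF F η) (yQ a) l₁ l₂ := hEn
    rw [Real.log_exp]
    have k4 : 2 * π * (l₂ + c + ε / 2) + π * ε = 2 * π * (l₂ + c + ε) := by ring
    linarith
  · -- smallness
    intro z hz
    have hz1 : ‖∏ j, (z - a j)‖ ≤ 1 := by
      have h1 : ‖∏ j, (z - a j)‖ ≤ Real.exp (-(n * d)) := hz.1
      refine h1.trans (Real.exp_le_one_iff.2 ?_)
      have : 0 ≤ (n : ℝ) * d := by positivity
      linarith
    have hg0 := gQ_zero_of_le (a := a) hz1
    unfold tg
    split_ifs with h0'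
    · rw [h0'] at hz
      have h3 := hK₄ hz (2 * η) h2η h2η1
      have h4 : K₄ * (2 * η) ≤ |K₄| * (2 * η) := mul_le_mul_of_nonneg_right (le_abs_self _) h2η.le
      simp only [hψ]
      linarith
    · have hzp : 0 < ‖z‖ := norm_pos_iff.2 h0'
      have h3 := hK₃ z hz (Real.log ‖z‖) (2 * η) (Real.exp_log hzp) h2η h2η1
      have h4 : K₃ * (2 * η) ≤ |K₃| * (2 * η) := mul_le_mul_of_nonneg_right (le_abs_self _) h2η.le
      simp only [hFFc, FF]
      rw [hg0, hlow 0 hη.le]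
      linarith [le_abs_self (F (Real.log ‖z‖) (2 * η))]

end Pool.Agent.H51.EH
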